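import Pool.Agent.TH427.AR.Gen

/-!
# Cauchy's theorem for automorphic loops: reduction to simple loops of a restricted kind

If a finite automorphic loop of order divisible by the prime `p` has no element of order `p`, then
one of its sections is such a loop which is simple, nonassociative, and has strong additional
properties: its proper subloops, its inner mapping group, the centralizers of nontrivial inner
mappings and all translations have order prime to `p`, the inversion mapping inverts no element of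
order divisible by `p` of the multiplication group, the orbit of the identity under any such element
generates the loop, the loop is generated by `y`, `k(y)`, ..., `k^(p-2)(y)` for one element `y` and
one inner mapping `k`, and the multiplication group is almost simple.
-/

set_option autoImplicit false

namespace Pool.Agent.Results.MP_951c8d_al.SimpleReduction

open Pool.Agent.TH427.AR
open Equiv (Perm)

/-- The finite loop with product `mul` and identity `e` is automorphic, its order is divisible by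
the prime `p`, and it has no element of order `p` (no `x ≠ e` with `x ^ p = e`). -/
def Counterexample {Q : Type} [Fintype Q] (mul : Q → Q → Q) (e : Q) (p : ℕ) : Prop :=
  AutLoop mul e ∧ p ∣ Fintype.card Q ∧ ∀ x : Q, x ≠ e → (fun z => mul z x)^[p] e ≠ e

/-- `X` is a section (a homomorphic image of a subloop) of `Q`. -/
def IsSection {Q X : Type} (mul : Q → Q → Q) (e : Q) (mulX : X → X → X) : Prop :=
  ∃ (T : Set Q) (f : Q → X), e ∈ T ∧
    (∀ a ∈ T, ∀ b ∈ T, mul a b ∈ T ∧ f (mul a b) = mulX (f a) (f b)) ∧ ∀ x, ∃ t ∈ T, f t = x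

/-- The permutation group `G` is almost simple: it has a nonabelian simple normal subgroup with
trivial centralizer. -/
def AlmostSimple {X : Type} (G : Subgroup (Perm X)) : Prop :=
  ∃ N : Subgroup (Perm X), N ≤ G ∧ (∀ g ∈ G, ∀ n ∈ N, g * n * g⁻¹ ∈ N) ∧
    IsSimpleGroup N ∧ (∃ a ∈ N, ∃ b ∈ N, a * b ≠ b * a) ∧
    (∀ g ∈ G, (∀ n ∈ N, g * n = n * g) → g = 1)

theorem iter {X : Type} [H675HL.AL X] (x : X) (n : ℕ) :
    (fun z : X => z * x)^[n] 1 = pw (toA X) x n := by
  rw [← R_pow_e]
  rw [← Equiv.Perm.iterate_eq_pow]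
  rfl

theorem result :
    ∀ (p : ℕ), p.Prime → ∀ (Q : Type) [Fintype Q] (mul : Q → Q → Q) (e : Q),
      Counterexample mul e p →
      p ≠ 2 ∧ ∃ (X : Type) (_ : Fintype X) (mulX : X → X → X) (eX : X),
        IsSection mul e mulX ∧
        Counterexample mulX eX p ∧
        IsSimpleLoop mulX ∧ ¬ IsAssoc mulX ∧
        (∀ S : Finset X, eX ∈ S → (∀ a ∈ S, ∀ b ∈ S, mulX a b ∈ S) → S ≠ Finset.univ →
          ¬ p ∣ S.card) ∧
        ¬ p ∣ Nat.card (InnGroup mulX eX) ∧
        (∀ h ∈ InnGroup mulX eX, h ≠ 1 → ∀ g ∈ MultGroup mulX, g * h = h * g →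
          ¬ p ∣ orderOf g) ∧
        (∀ T : Perm X, (∃ x, ∀ y, T y = mulX x y) ∨ (∃ x, ∀ y, T y = mulX y x) →
          ¬ p ∣ orderOf T) ∧
        (∀ J : Perm X, (∀ x, mulX x (J x) = eX) → ∀ g ∈ MultGroup mulX, p ∣ orderOf g →
          J * g * J ≠ g⁻¹) ∧
        (∀ g ∈ MultGroup mulX, p ∣ orderOf g → ∀ S : Finset X,
          (∀ a ∈ S, ∀ b ∈ S, mulX a b ∈ S) → (∀ n : ℕ, (g ^ n) eX ∈ S) → S = Finset.univ) ∧
        (∃ y : X, ∃ k ∈ InnGroup mulX eX, ∀ S : Finset X, (∀ a ∈ S, ∀ b ∈ S, mulX a b ∈ S) →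
          eX ∈ S → (∀ n < p - 1, (k ^ n) y ∈ S) → S = Finset.univ) ∧
        AlmostSimple (MultGroup mulX) := by
  classical
  rintro p hp Q _ mul e ⟨h, hd, hno⟩
  let _ : H675HL.AL Q := h.toAL
  have hno' : ¬ Cp (toA Q) p := by
    rintro ⟨x, hx, hxp⟩
    apply hno x hx
    rw [← iter (X := Q)] at hxp
    exact hxp
  have hd' : p ∣ Nat.card Q := by rw [Nat.card_eq_fintype_card]; exact hd
  obtain ⟨X, iX, fX, hs, hb, hsi⟩ := red hp _ Q rfl hd' hno'
  have hX := autLoop_of X
  have hsimp : IsSimpleLoop (fun a b : X => a * b) := hsi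
  have hna : ¬ IsAssoc (fun a b : X => a * b) := fun ha => hb.na ha
  have hM : MultGroup (fun a b : X => a * b) = Mlt (toA X) := mg_eq hX
  let iF : Fintype X := Fintype.ofFinite X
  refine ⟨?_, X, iF, fun a b => a * b, 1, ?_, ⟨hX, ?_, ?_⟩, hsimp, hna, ?_, ?_,
    ?_, ?_, ?_, ?_, ?_, almost_simple hX hsimp hna⟩
  · rintro rfl
    exact hno' (cp_two hd')
  · obtain ⟨T, f, h1, h2, h3⟩ := hs
    exact ⟨T, f, h1, h2, h3⟩
  · have := hb.dvd
    rw [Nat.card_eq_fintype_card] at this
    convert this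
  · intro x hx hxp
    have h1 : (fun z : X => z * x)^[p] 1 = 1 := hxp
    rw [iter] at h1
    exact hb.no ⟨x, hx, h1⟩
  · intro S hS1 hS2 hSu hpS
    refine hb.sub (S : Set X) hS1 hS2 (fun h => hSu ?_) ?_
    · ext x
      have : x ∈ (S : Set X) := by rw [h]; exact Set.mem_univ x
      exact ⟨fun _ => Finset.mem_univ x, fun _ => this⟩
    · have h1 : Nat.card (S : Set X) = S.card := by
        rw [Nat.card_eq_fintype_card]
        exact Fintype.card_coe S
      rw [h1]
      exact hpS
  · intro hpd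
    have : Fact p.Prime := ⟨hp⟩
    obtain ⟨g, hg⟩ := exists_prime_orderOf_dvd_card' p hpd
    have h1 : g.1 ∈ Mlt (toA X) := by rw [← hM]; exact g.2.1
    have h2 : g.1 (toA X).e = (toA X).e := g.2.2
    apply hb.inn h1 h2
    rw [← hg, Subgroup.orderOf_coe]
  · rintro k ⟨hk, hk'⟩ hk1 g hg hgk
    rw [hM] at hk hg
    exact hb.cen hk hk' hk1 hg hgk
  · rintro T (⟨x, hx⟩ | ⟨x, hx⟩)
    · have : T = (toA X).L x := Equiv.ext hx
      rw [this]
      exact hb.trL x
    · have : T = (toA X).R x := Equiv.ext hx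
      rw [this]
      exact hb.trR x
  · intro J hJ g hg hpg hgJ
    rw [hM] at hg
    have h1 : J = (toA X).J := Equiv.ext fun x =>
      Pool.Agent.H687R3.AL.AL.eq_inv (A := toA X) (hJ x)
    rw [h1] at hgJ
    exact hb.inv hg hgJ hpg
  · intro g hg hpg S hS ho
    rw [hM] at hg
    have h1 := hb.gen hg hpg (S := (S : Set X)) hS ho
    ext x
    have h2 : x ∈ (S : Set X) := by rw [h1]; exact Set.mem_univ x
    exact ⟨fun _ => Finset.mem_univ x, fun _ => h2⟩
  · obtain ⟨k, hk, hke, y, hy⟩ := hb.few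
    refine ⟨y, k, ⟨by rw [hM]; exact hk, hke⟩, fun S hS he hn => ?_⟩
    have h1 := hy (S : Set X) hS he hn
    ext x
    have h2 : x ∈ (S : Set X) := by rw [h1]; exact Set.mem_univ x
    exact ⟨fun _ => Finset.mem_univ x, fun _ => h2⟩

end Pool.Agent.Results.MP_951c8d_al.SimpleReduction
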