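import Pool.Agent.TH427.AR.PS

/-!
# Cauchy's theorem for automorphic loops: a condition on the multiplication group

Let `Q` be a finite automorphic loop of order divisible by the prime `p`. Suppose that in every
nonabelian simple section `S` of the multiplication group with order divisible by `p`, every
automorphism of order two centralizes or inverts an element of order `p`. (For instance, the
multiplication group is `p`-solvable: then there is no such `S`.) Then `Q` has an element of
order `p`.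
-/

set_option autoImplicit false

namespace Pool.Agent.Results.MP_951c8d_al.SimpleSections

open Pool.Agent.TH427.AR
open Equiv (Perm)

theorem iter {X : Type} [H675HL.AL X] (x : X) (n : ℕ) :
    (fun z : X => z * x)^[n] 1 = pw (toA X) x n := by
  rw [← R_pow_e]
  rw [← Equiv.Perm.iterate_eq_pow]
  rfl

theorem result :
    ∀ (p : ℕ), p.Prime → ∀ (Q : Type) [Fintype Q] (mul : Q → Q → Q) (e : Q),
      AutLoop mul e → p ∣ Fintype.card Q →
      (∀ (Γ : Subgroup (Perm Q)) (S : Type) [Group S] (π : Γ →* S), Γ ≤ MultGroup mul →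
        Function.Surjective π → IsSimpleGroup S → (∃ a b : S, a * b ≠ b * a) →
        p ∣ Nat.card S → ∀ α : S ≃* S, (∀ s, α (α s) = s) → (∃ s, α s ≠ s) →
        ∃ s : S, orderOf s = p ∧ (α s = s ∨ α s = s⁻¹)) →
      ∃ x : Q, x ≠ e ∧ (fun z => mul z x)^[p] e = e := by
  classical
  intro p hp Q _ mul e h hd hsec
  let _ : H675HL.AL Q := h.toAL
  have hd' : p ∣ Nat.card Q := by rw [Nat.card_eq_fintype_card]; exact hd
  by_contra hcon
  have hno' : ¬ Cp (toA Q) p := by
    rintro ⟨x, hx, hxp⟩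
    apply hcon
    refine ⟨x, hx, ?_⟩
    rw [← iter (X := Q)] at hxp
    exact hxp
  obtain ⟨X, iX, fX, ⟨T, f, hT1, hT, hs⟩, hb, hsi⟩ := red hp _ Q rfl hd' hno'
  have hX := autLoop_of X
  have hsimp : IsSimpleLoop (fun a b : X => a * b) := hsi
  have hna : ¬ IsAssoc (fun a b : X => a * b) := fun ha => hb.na ha
  have H : Hyp (toA X) := hyp_pub hX hsimp hna
  obtain ⟨N, hN⟩ := exists_MinN H
  obtain ⟨Γ, π, hΓ, hπ⟩ := section_N (Q := Q) hT hs hN.le
  have hΓ' : Γ ≤ MultGroup mul := by rw [mg_eq h]; exact hΓ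
  obtain ⟨s, hsp, hs'⟩ := hsec Γ N π hΓ' hπ (isSimple_N H hN) (nonab_N H hN)
    (hb.dvd.trans (dvd_N H hN)) (aJ H hN) (aJ_aJ H hN) (aJ_ne H hN)
  have hsM : s.1 ∈ Mlt (toA X) := hN.le s.2
  have hso : p ∣ orderOf s.1 := by
    rw [Subgroup.orderOf_coe, hsp]
  rcases hs' with h1 | h1
  · have h2 : (toA X).J * s.1 * (toA X).J = s.1 := congrArg Subtype.val h1
    exact hb.inn hsM (CJ_e H.hs H.hJ hsM (Jfix_iff.1 h2)) hso
  · have h2 : (toA X).J * s.1 * (toA X).J = (s.1)⁻¹ := congrArg Subtype.val h1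
    exact hb.inv hsM h2 hso

end Pool.Agent.Results.MP_951c8d_al.SimpleSections
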