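import Pool.Agent.TH427.AR.TM8

/-!
# Automorphic loops of order twice an odd number

Every automorphic loop of order `2 m`, `m` odd, has a homomorphism onto the group of order two,
hence a normal subloop of index two (of odd order). Consequences: a finite simple nonassociative
automorphic loop of even order has order divisible by four; Cauchy's theorem for automorphic loops
of odd order (known) implies Cauchy's theorem for automorphic loops of order twice an odd number.
-/

set_option autoImplicit false

namespace Pool.Agent.Results.MP_951c8d_al.TwiceOdd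

open Pool.Agent.TH427.AR
open Equiv (Perm)

/-- Cauchy's theorem for the loop: for each prime divisor of the order there is an element of that
order. -/
def Cauchy {Q : Type} [Fintype Q] (mul : Q → Q → Q) (e : Q) : Prop :=
  ∀ p : ℕ, p.Prime → p ∣ Fintype.card Q → ∃ x : Q, x ≠ e ∧ (fun z => mul z x)^[p] e = e

theorem iter {X : Type} [H675HL.AL X] (x : X) (n : ℕ) :
    (fun z : X => z * x)^[n] 1 = pw (toA X) x n := by
  rw [← R_pow_e]
  rw [← Equiv.Perm.iterate_eq_pow]
  rfl

theorem hom {Q : Type} [Fintype Q] {mul : Q → Q → Q} {e : Q} (h : AutLoop mul e)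
    (hm : ∃ m, Odd m ∧ Fintype.card Q = 2 * m) :
    ∃ f : Q → ℤˣ, (∀ x y, f (mul x y) = f x * f y) ∧ ∃ x, f x = -1 := by
  let _ : H675HL.AL Q := h.toAL
  exact homP_all (Nat.card Q) Q (toA Q) rfl (by rw [Nat.card_eq_fintype_card]; exact hm)

theorem result :
    (∀ (Q : Type) [Fintype Q] (mul : Q → Q → Q) (e : Q), AutLoop mul e →
      (∃ m, Odd m ∧ Fintype.card Q = 2 * m) →
      ∃ f : Q → ℤˣ, (∀ x y, f (mul x y) = f x * f y) ∧ ∃ x, f x = -1) ∧
    (∀ (Q : Type) [Fintype Q] (mul : Q → Q → Q) (e : Q), AutLoop mul e → IsSimpleLoop mul →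
      ¬ IsAssoc mul → Even (Fintype.card Q) → 4 ∣ Fintype.card Q) ∧
    ((∀ (O : Type) [Fintype O] (mulO : O → O → O) (eO : O), AutLoop mulO eO →
        Odd (Fintype.card O) → Cauchy mulO eO) →
      ∀ (Q : Type) [Fintype Q] (mul : Q → Q → Q) (e : Q), AutLoop mul e →
        (∃ m, Odd m ∧ Fintype.card Q = 2 * m) → Cauchy mul e) := by
  classical
  refine ⟨fun Q _ mul e h hm => hom h hm, ?_, ?_⟩
  · intro Q _ mul e h hs hna ⟨k, hk⟩
    by_contra h4
    have hodd : Odd k := by
      rw [← Nat.not_even_iff_odd]
      rintro ⟨r, hr⟩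
      exact h4 ⟨r, by omega⟩
    obtain ⟨f, hf, x, hx⟩ := hom h ⟨k, hodd, by omega⟩
    have hfe : f e = 1 := by
      have h1 := hf e e
      rw [(h.one e).1] at h1
      exact mul_eq_left.1 h1.symm
    rcases hs (fun a b => f a = f b) ⟨fun _ => rfl, fun h => h.symm, fun h h' => h.trans h'⟩
      (fun a b c d h1 h2 => by
        have h1' : f a = f b := h1
        have h2' : f c = f d := h2
        show f (mul a c) = f (mul b d)
        rw [hf, hf, h1', h2']) with h1 | h1
    · apply hna
      intro a b c
      apply h1
      show f _ = f _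
      rw [hf, hf, hf, hf, mul_assoc]
    · have h2 : f x = f e := h1 x e
      rw [hx, hfe] at h2
      exact absurd h2 (by decide)
  · intro hyp Q _ mul e h hm p hp hpd
    obtain ⟨f, hf, x0, hx0⟩ := hom h hm
    obtain ⟨m, hmo, hcard⟩ := hm
    have hfe : f e = 1 := by
      have h1 := hf e e
      rw [(h.one e).1] at h1
      exact mul_eq_left.1 h1.symm
    by_cases hp2 : p = 2
    · subst hp2
      let _ : H675HL.AL Q := h.toAL
      obtain ⟨x, hx, hxp⟩ := cp_two (A := toA Q) (by rw [Nat.card_eq_fintype_card]; exact hpd)
      rw [← iter (X := Q)] at hxp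
      exact ⟨x, hx, hxp⟩
    · let O : Type := {y : Q // f y = 1}
      let mulO : O → O → O := fun a b => ⟨mul a.1 b.1, by rw [hf, a.2, b.2, one_mul]⟩
      let eO : O := ⟨e, hfe⟩
      have hO : AutLoop mulO eO :=
        { one := fun a => ⟨Subtype.ext (h.one a.1).1, Subtype.ext (h.one a.1).2⟩
          ldiv := by
            intro a b
            obtain ⟨x, hx, hxu⟩ := h.ldiv a.1 b.1
            have h1 : f x = 1 := by
              have h2 := hf a.1 x
              rw [hx, a.2, b.2, one_mul] at h2
              exact h2.symm
            exact ⟨⟨x, h1⟩, Subtype.ext hx, fun y hy => Subtype.ext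
              (hxu y.1 (congrArg Subtype.val hy))⟩
          rdiv := by
            intro a b
            obtain ⟨x, hx, hxu⟩ := h.rdiv a.1 b.1
            have h1 : f x = 1 := by
              have h2 := hf x a.1
              rw [hx, a.2, b.2, mul_one] at h2
              exact h2.symm
            exact ⟨⟨x, h1⟩, Subtype.ext hx, fun y hy => Subtype.ext
              (hxu y.1 (congrArg Subtype.val hy))⟩
          autT := fun x u v z1 z2 z3 h1 h2 h3 => Subtype.ext (h.autT x.1 u.1 v.1 z1.1 z2.1 z3.1
            (congrArg Subtype.val h1) (congrArg Subtype.val h2) (congrArg Subtype.val h3))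
          autL := fun x y u v z1 z2 z3 h1 h2 h3 => Subtype.ext
            (h.autL x.1 y.1 u.1 v.1 z1.1 z2.1 z3.1
            (congrArg Subtype.val h1) (congrArg Subtype.val h2) (congrArg Subtype.val h3))
          autR := fun x y u v z1 z2 z3 h1 h2 h3 => Subtype.ext
            (h.autR x.1 y.1 u.1 v.1 z1.1 z2.1 z3.1
            (congrArg Subtype.val h1) (congrArg Subtype.val h2) (congrArg Subtype.val h3)) }
      have hOc : Fintype.card O = m := by
        have e1 : Function.Bijective (fun y : O => (⟨mul x0 y.1, by
            rw [hf, hx0, y.2]; decide⟩ : {y : Q // ¬ f y = 1})) := by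
          constructor
          · intro a b hab
            have h1 : mul x0 a.1 = mul x0 b.1 := congrArg Subtype.val hab
            exact Subtype.ext ((h.ldiv x0 (mul x0 b.1)).unique h1 rfl)
          · rintro ⟨b, hb⟩
            obtain ⟨x, hx, -⟩ := h.ldiv x0 b
            have hb' : f b = -1 := (Int.units_eq_one_or _).resolve_left hb
            have h1 : f x = 1 := by
              have h2 := hf x0 x
              rw [hx, hx0, hb'] at h2
              have h3 : (-1 : ℤˣ) * 1 = -1 * f x := by rw [mul_one]; exact h2
              exact (mul_left_cancel h3).symm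
            exact ⟨⟨x, h1⟩, Subtype.ext hx⟩
        have e2 := Fintype.card_of_bijective e1
        have e3 := Fintype.card_subtype_compl (fun y : Q => f y = 1)
        have e4 : Fintype.card {y : Q // f y = 1} ≤ Fintype.card Q := Fintype.card_subtype_le _
        have e5 : Fintype.card O = Fintype.card {y : Q // f y = 1} := rfl
        omega
      have hpO : p ∣ Fintype.card O := by
        rw [hOc]
        rw [hcard] at hpd
        rcases (Nat.Prime.dvd_mul hp).1 hpd with h1 | h1
        · exact absurd ((Nat.prime_dvd_prime_iff_eq hp Nat.prime_two).1 h1) hp2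
        · exact h1
      obtain ⟨x, hx, hxp⟩ := hyp O mulO eO hO (by rw [hOc]; exact hmo) p hp hpO
      refine ⟨x.1, fun h1 => hx (Subtype.ext h1), ?_⟩
      have h1 : ∀ n : ℕ, ((fun z => mulO z x)^[n] eO).1 = (fun z => mul z x.1)^[n] e := by
        intro n
        induction n with
        | zero => rfl
        | succ n ih =>
          rw [Function.iterate_succ_apply', Function.iterate_succ_apply', ← ih]
      rw [← h1, hxp]

end Pool.Agent.Results.MP_951c8d_al.TwiceOdd
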