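import Pool.Agent.TH427.AR.TwoP

/-!
# Cauchy's theorem for automorphic loops whose order involves few primes

Let `Q` be a finite automorphic loop whose order is divisible by the prime `p`. If `Q` has no
element of order `p`, then `Q` has a section which is simple, nonassociative, and whose order is
divisible by `p` and by a prime different from `2` and `p`. In particular Cauchy's theorem holds
for automorphic loops of order `2 ^ a * p ^ b`. Moreover an automorphic loop whose order is not a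
power of two has an element of odd prime order.
-/

set_option autoImplicit false

namespace Pool.Agent.Results.MP_951c8d_al.TwoPrimes

open Pool.Agent.TH427.AR
open Equiv (Perm)

/-- `X` is a section (a homomorphic image of a subloop) of `Q`. -/
def IsSection {Q X : Type} (mul : Q → Q → Q) (e : Q) (mulX : X → X → X) : Prop :=
  ∃ (T : Set Q) (f : Q → X), e ∈ T ∧
    (∀ a ∈ T, ∀ b ∈ T, mul a b ∈ T ∧ f (mul a b) = mulX (f a) (f b)) ∧ ∀ x, ∃ t ∈ T, f t = x

theorem iter {X : Type} [H675HL.AL X] (x : X) (n : ℕ) :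
    (fun z : X => z * x)^[n] 1 = pw (toA X) x n := by
  rw [← R_pow_e]
  rw [← Equiv.Perm.iterate_eq_pow]
  rfl

theorem result :
    (∀ (p : ℕ), p.Prime → ∀ (Q : Type) [Fintype Q] (mul : Q → Q → Q) (e : Q),
      AutLoop mul e → p ∣ Fintype.card Q →
      (∀ (X : Type) [Fintype X] (mulX : X → X → X), IsSection mul e mulX →
        IsSimpleLoop mulX → ¬ IsAssoc mulX → p ∣ Fintype.card X →
        ∀ q : ℕ, q.Prime → q ∣ Fintype.card X → q = 2 ∨ q = p) →
      ∃ x : Q, x ≠ e ∧ (fun z => mul z x)^[p] e = e) ∧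
    (∀ (Q : Type) [Fintype Q] (mul : Q → Q → Q) (e : Q) (r a b : ℕ),
      AutLoop mul e → r.Prime → Fintype.card Q = 2 ^ a * r ^ b →
      ∀ p : ℕ, p.Prime → p ∣ Fintype.card Q →
        ∃ x : Q, x ≠ e ∧ (fun z => mul z x)^[p] e = e) ∧
    (∀ (Q : Type) [Fintype Q] (mul : Q → Q → Q) (e : Q), AutLoop mul e →
      (¬ ∃ k, Fintype.card Q = 2 ^ k) →
      ∃ q : ℕ, q.Prime ∧ q ≠ 2 ∧ q ∣ Fintype.card Q ∧
        ∃ x : Q, x ≠ e ∧ (fun z => mul z x)^[q] e = e) := by
  classical
  have hcard : ∀ (X : Type) [H675HL.AL X] [Fintype X] (p : ℕ), p.Prime → p ∣ Fintype.card X →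
      ¬ Cp (toA X) p → ∃ q : ℕ, q.Prime ∧ q ∣ Fintype.card X ∧ q ≠ 2 ∧ q ≠ p := by
    intro X _ _ p hp hd hno
    have h2 : p ≠ 2 := by
      rintro rfl
      exact hno (cp_two (by rw [Nat.card_eq_fintype_card]; exact hd))
    have h3 : ¬ ∃ k, Fintype.card X = 2 ^ k := by
      rintro ⟨k, hk⟩
      rw [hk] at hd
      exact h2 ((Nat.prime_dvd_prime_iff_eq hp Nat.prime_two).1 (hp.dvd_of_dvd_pow hd))
    obtain ⟨q, hq, hq2, hqd, hqc⟩ := exists_odd (A := toA X) h3
    refine ⟨q, hq, hqd, hq2, ?_⟩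
    rintro rfl
    exact hno hqc
  have hfst : ∀ (p : ℕ), p.Prime → ∀ (Q : Type) [Fintype Q] (mul : Q → Q → Q) (e : Q),
      AutLoop mul e → p ∣ Fintype.card Q →
      (∀ (X : Type) [Fintype X] (mulX : X → X → X), IsSection mul e mulX →
        IsSimpleLoop mulX → ¬ IsAssoc mulX → p ∣ Fintype.card X →
        ∀ q : ℕ, q.Prime → q ∣ Fintype.card X → q = 2 ∨ q = p) →
      ∃ x : Q, x ≠ e ∧ (fun z => mul z x)^[p] e = e := by
    intro p hp Q _ mul e h hd hsec
    let _ : H675HL.AL Q := h.toAL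
    have hd' : p ∣ Nat.card Q := by rw [Nat.card_eq_fintype_card]; exact hd
    by_contra hcon
    have hno' : ¬ Cp (toA Q) p := by
      rintro ⟨x, hx, hxp⟩
      apply hcon
      refine ⟨x, hx, ?_⟩
      rw [← iter (X := Q)] at hxp
      exact hxp
    obtain ⟨X, iX, fX, ⟨T, f, h1, h2, h3⟩, hb, hsi⟩ := red hp _ Q rfl hd' hno'
    let iF : Fintype X := Fintype.ofFinite X
    have hpX : p ∣ Fintype.card X := by
      have := hb.dvd
      rwa [Nat.card_eq_fintype_card] at this
    have hna : ¬ IsAssoc (fun a b : X => a * b) := fun ha => hb.na ha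
    obtain ⟨q, hq, hqd, hq2, hqp⟩ := hcard X p hp hpX hb.no
    rcases hsec X (fun a b : X => a * b) ⟨T, f, h1, h2, h3⟩ hsi hna hpX q hq hqd with h4 | h4
    · exact hq2 h4
    · exact hqp h4
  refine ⟨hfst, ?_, ?_⟩
  · intro Q _ mul e r a b h hr hab p hp hd
    have hprime : ∀ q : ℕ, q.Prime → q ∣ Fintype.card Q → q = 2 ∨ q = r := by
      intro q hq hqd
      rw [hab] at hqd
      rcases hq.dvd_or_dvd hqd with h1 | h1
      · exact Or.inl ((Nat.prime_dvd_prime_iff_eq hq Nat.prime_two).1 (hq.dvd_of_dvd_pow h1))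
      · exact Or.inr ((Nat.prime_dvd_prime_iff_eq hq hr).1 (hq.dvd_of_dvd_pow h1))
    let _ : H675HL.AL Q := h.toAL
    by_contra hcon
    have hno' : ¬ Cp (toA Q) p := by
      rintro ⟨x, hx, hxp⟩
      apply hcon
      refine ⟨x, hx, ?_⟩
      rw [← iter (X := Q)] at hxp
      exact hxp
    have hp2 : p ≠ 2 := by
      rintro rfl
      exact hno' (cp_two (by rw [Nat.card_eq_fintype_card]; exact hd))
    have hpr : p = r := by
      rcases hprime p hp hd with h4 | h4
      · exact absurd h4 hp2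
      · exact h4
    obtain ⟨q, hqq, hqd, hq2, hqp⟩ := hcard Q p hp hd hno'
    rcases hprime q hqq hqd with h4 | h4
    · exact hq2 h4
    · exact hqp (h4.trans hpr.symm)
  · intro Q _ mul e h hn
    let _ : H675HL.AL Q := h.toAL
    obtain ⟨q, hq, hq2, hqd, x, hx, hxq⟩ := exists_odd (A := toA Q) hn
    refine ⟨q, hq, hq2, hqd, x, hx, ?_⟩
    rw [← iter (X := Q)] at hxq
    exact hxq

end Pool.Agent.Results.MP_951c8d_al.TwoPrimes
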